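import Pool.Agent.Q222.OR.Lock
import Pool.Agent.Q222.OR.Poly

namespace Pool.Agent.Results.MP_642fbc_lc.NoPolynomial

open Q222.OR

/-- **Main theorem.** No polynomial `P(n, m)` bounds the length at which more than half of the words
are orphans, for non-surjective range-2 cellular automata with `n` states and shortest orphan length
`m`.

Quantitative form: for every `r ≥ 1` there is a non-surjective range-2 automaton with `4^r` states
and shortest orphan length at most `r + 1` such that at most half of the words of length `l` are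
orphans, for every `l ≤ 2^(r^2 - 1)`. -/
theorem result :
    (¬ ∃ P : MvPolynomial (Fin 2) ℝ, ∀ n : ℕ, 1 ≤ n → ∀ (S : Type) (_ : Fintype S),
      Fintype.card S = n → ∀ (f : S → S → S) (m : ℕ), ShortestOrphan f m →
        ∃ l : ℕ, (l : ℝ) ≤ MvPolynomial.eval ![(n : ℝ), (m : ℝ)] P ∧ 1 / 2 < rho f l) ∧
    (∀ r : ℕ, 1 ≤ r → ∃ (S : Type) (_ : Fintype S), Fintype.card S = 4 ^ r ∧
      ∃ (f : S → S → S) (m : ℕ), m ≤ r + 1 ∧ ShortestOrphan f m ∧
        ∀ l : ℕ, l ≤ 2 ^ (r ^ 2 - 1) → rho f l ≤ 1 / 2) := by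
  have h2 : ∀ r : ℕ, 1 ≤ r → ∃ (S : Type) (_ : Fintype S), Fintype.card S = 4 ^ r ∧
      ∃ (f : S → S → S) (m : ℕ), m ≤ r + 1 ∧ ShortestOrphan f m ∧
        ∀ l : ℕ, l ≤ 2 ^ (r ^ 2 - 1) → rho f l ≤ 1 / 2 := by
    intro r hr
    refine ⟨St r, inferInstance, card_St r, rule r,
      sInf {l : ℕ | ∃ u : Fin l → St r, Orphan (rule r) u}, ?_, ?_, fun l hl => rho_le hr hl⟩
    · exact Nat.sInf_le (exists_orphan hr)
    · refine ⟨Nat.sInf_mem ⟨r + 1, exists_orphan hr⟩, fun l hl => Nat.sInf_le hl⟩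
  refine ⟨?_, h2⟩
  rintro ⟨P, hP⟩
  obtain ⟨C, hC, D, hb⟩ := poly_bound P
  obtain ⟨r, hr, hbe⟩ := beats C hC D
  obtain ⟨S, iS, hcard, f, m, hm, hmin, hrho⟩ := h2 r hr
  have h4 : 1 ≤ 4 ^ r := Nat.one_le_pow _ _ (by norm_num)
  obtain ⟨l, hl, hgt⟩ := hP (4 ^ r) h4 S iS hcard f m hmin
  have hm4 : m ≤ 4 ^ r := by
    have h5 : r < 2 ^ r := Nat.lt_two_pow_self
    have h6 : 2 ^ r ≤ 4 ^ r := Nat.pow_le_pow_left (by norm_num) r
    omega
  have h7 := hb ((4 ^ r : ℕ) : ℝ) (m : ℝ) (by exact_mod_cast h4) (Nat.cast_nonneg m)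
    (by exact_mod_cast hm4)
  have h8 : (l : ℝ) ≤ ((2 ^ (r ^ 2 - 1) : ℕ) : ℝ) := by
    calc (l : ℝ) ≤ _ := hl
      _ ≤ _ := le_abs_self _
      _ ≤ _ := h7
      _ = C * ((4 : ℝ) ^ r) ^ D := by push_cast; rfl
      _ ≤ _ := hbe
  have h9 := hrho l (by exact_mod_cast h8)
  linarith

end Pool.Agent.Results.MP_642fbc_lc.NoPolynomial
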